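import Pool.Agent.Helper73.LF.Chars

/-!
# The powers of a generator of the group of characters are additive in the exponent
-/

namespace Pool.Agent.Helper73.QC

open Pool.Agent.Helper73.LF

variable {K L : Type*} [Field K] [Fintype K] [Field L] {n : ℕ} [NeZero n] {τ : MulChar K L}
  {a b : ZMod n}

theorem ch_add (hτ : orderOf τ = Fintype.card K - 1)
    (ha : ((Fintype.card K - 1 : ℕ) : ZMod n) * a = 0)
    (hb : ((Fintype.card K - 1 : ℕ) : ZMod n) * b = 0) : ch τ (a + b) = ch τ a * ch τ b := by
  have hab : ((Fintype.card K - 1 : ℕ) : ZMod n) * (a + b) = 0 := by rw [mul_add, ha, hb, add_zero]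
  have h1 := exp_mul ha
  have h2 := exp_mul hb
  have h3 := exp_mul hab
  rw [ch, ch, ch, ← pow_add]
  set ea := (Fintype.card K - 1) * a.val / n
  set eb := (Fintype.card K - 1) * b.val / n
  set ec := (Fintype.card K - 1) * (a + b).val / n
  have h4 : (a + b).val + n * ((a.val + b.val) / n) = a.val + b.val := by
    rw [ZMod.val_add]
    exact Nat.mod_add_div _ _
  have h5 : ea + eb = ec + (Fintype.card K - 1) * ((a.val + b.val) / n) := by
    apply Nat.eq_of_mul_eq_mul_left (NeZero.pos n)
    calc n * (ea + eb) = n * ea + n * eb := by ring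
      _ = (Fintype.card K - 1) * (a.val + b.val) := by rw [h1, h2]; ring
      _ = (Fintype.card K - 1) * ((a + b).val + n * ((a.val + b.val) / n)) := by rw [h4]
      _ = (Fintype.card K - 1) * (a + b).val +
            n * ((Fintype.card K - 1) * ((a.val + b.val) / n)) := by ring
      _ = n * (ec + (Fintype.card K - 1) * ((a.val + b.val) / n)) := by rw [← h3]; ring
  rw [h5, pow_add, pow_mul, ← hτ, pow_orderOf_eq_one, one_pow, mul_one]

end Pool.Agent.Helper73.QC
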