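import Pool.Agent.Helper73.QC.Defs
import Pool.Agent.Helper79.QC.Digit
import Pool.Agent.Helper79.QC.Binom

/-!
# The heights of multiples
-/

namespace Pool.Agent.Helper73.QC

open Pool.Agent.Helper79.QC Finset

/-- the sum of the fractional parts of the ten exponents divided by `n` -/
def height {n : ℕ} (a : Fin 5 → ZMod n) : ℕ := (∑ i, (residues a i).val) / n

theorem residues_mul {R : Type} [CommRing R] (x : R) (a : Fin 5 → R) (i : Fin 10) :
    residues (fun j => x * a j) i = x * residues a i := by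
  fin_cases i <;> simp [residues] <;> ring

theorem residues_cast {n : ℕ} (v : Fin 5 → ℤ) (i : Fin 10) :
    residues (fun j => ((v j : ℤ) : ZMod n)) i = ((residues v i : ℤ) : ZMod n) := by
  fin_cases i <;> simp [residues]

theorem sum_residues (v : Fin 5 → ℤ) : ∑ i, residues v i = 0 := by
  simp only [residues, Fin.sum_univ_succ, Fin.sum_univ_zero]
  simp
  ring

/-- the value of a multiple of `c` modulo `c d` -/
theorem val_smul {n c d : ℕ} (hn : n = c * d) (hn0 : n ≠ 0) (w : ℤ) :
    (((c * w : ℤ)) : ZMod n).val = c * ((w : ZMod d).val) := by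
  have hc0 : c ≠ 0 := by rintro rfl; exact hn0 (by rw [hn, zero_mul])
  have hd0 : d ≠ 0 := by rintro rfl; exact hn0 (by rw [hn, mul_zero])
  have : NeZero n := ⟨hn0⟩
  have : NeZero d := ⟨hd0⟩
  have hlt : c * ((w : ZMod d).val) < n := by
    rw [hn]
    exact Nat.mul_lt_mul_of_pos_left (ZMod.val_lt _) (Nat.pos_of_ne_zero hc0)
  rw [← ZMod.val_cast_of_lt hlt]
  congr 1
  set v := (w : ZMod d).val with hv
  have h1 : ((d : ℕ) : ℤ) ∣ w - v := by
    rw [← ZMod.intCast_zmod_eq_zero_iff_dvd, Int.cast_sub, Int.cast_natCast, hv,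
      ZMod.natCast_zmod_val, sub_self]
  have h2 : ((n : ℕ) : ℤ) ∣ (c : ℤ) * (w - v) := by
    rw [hn]
    push_cast
    exact mul_dvd_mul_left _ h1
  rw [← ZMod.intCast_zmod_eq_zero_iff_dvd] at h2
  rw [← sub_eq_zero, ← h2]
  push_cast
  ring

/-- the height of a multiple -/
theorem height_smul {n c d : ℕ} (hn : n = c * d) (hn0 : n ≠ 0) {a : Fin 5 → ZMod n}
    {v : Fin 5 → ℤ} (ha : ∀ i, a i = ((c * v i : ℤ) : ZMod n)) (x : ℕ) :
    height (fun i => (x : ZMod n) * a i) =
      (∑ i, ((x : ZMod d) * ((residues v i : ℤ) : ZMod d)).val) / d := by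
  have hc0 : 0 < c := by
    rcases c.eq_zero_or_pos with h | h
    · exact absurd (by rw [hn, h, zero_mul]) hn0
    · exact h
  have h1 : ∀ i, (residues (fun j => (x : ZMod n) * a j) i).val =
      c * ((x : ZMod d) * ((residues v i : ℤ) : ZMod d)).val := by
    intro i
    have h2 : residues (fun j => (x : ZMod n) * a j) i =
        (((c * (x * residues v i) : ℤ)) : ZMod n) := by
      have h3 : a = fun j => (c : ZMod n) * ((v j : ℤ) : ZMod n) := by
        funext j
        rw [ha j]
        push_cast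
        ring
      rw [residues_mul, h3, residues_mul (c : ZMod n), residues_cast]
      push_cast
      ring
    rw [h2, val_smul hn hn0]
    push_cast
    rfl
  rw [height, sum_congr rfl fun i _ => h1 i, ← mul_sum]
  conv_lhs => rw [hn]
  exact Nat.mul_div_mul_left _ _ hc0

end Pool.Agent.Helper73.QC
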