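import Pool.Agent.Helper44.QC.Parity
import Pool.Agent.Helper73.QC.Height

/-!
# The valuation of the determinant over any field over which the characters are defined
-/

open Finset

namespace Pool.Agent.Helper73.QC

open Pool.Agent.Helper73.LF Pool.Agent.Helper79.QC Pool.Agent.Helper73.KT Pool.Agent.Helper44.QC

/-- the sum of the digit sums -/
theorem digit_total' {p f n : ℕ} [NeZero n] (hp : p.Prime) (u : (ZMod n)ˣ)
    (hu : (u : ZMod n) = p) (hf0 : 0 < f) (hdvd : n ∣ p ^ f - 1) {ι : Type*} [Fintype ι]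
    {a : ι → ℤ} (hsum : ∑ D, a D = 0) (h : (ZMod n)ˣ) :
    ∑ D, (Nat.digits p ((p ^ f - 1) / n * ((h : ZMod n) * (a D : ZMod n)).val)).sum =
      (p - 1) * ∑ j ∈ range f, total n a (u ^ j * h) / n := by
  have hn0 : 0 < n := Nat.pos_of_ne_zero (NeZero.ne n)
  refine Nat.eq_of_mul_eq_mul_left hn0 ?_
  rw [Finset.mul_sum]
  calc ∑ D, n * (Nat.digits p ((p ^ f - 1) / n * ((h : ZMod n) * (a D : ZMod n)).val)).sum
      = ∑ D, (p - 1) * ∑ j ∈ range f, ((p : ZMod n) ^ j * ((h : ZMod n) * (a D : ZMod n))).val := by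
        refine Finset.sum_congr rfl fun D _ => ?_
        rw [digit_sum hp hf0 hdvd (ZMod.val_lt _)]
        congr 1
        exact Finset.sum_congr rfl fun j _ => val_pow_mul p j _
    _ = (p - 1) * ∑ j ∈ range f, total n a (u ^ j * h) := by
        rw [← Finset.mul_sum, Finset.sum_comm]
        congr 1
        refine Finset.sum_congr rfl fun j _ => ?_
        rw [total]
        refine Finset.sum_congr rfl fun D _ => ?_
        rw [Units.val_mul, Units.val_pow_eq_pow_val, hu, mul_assoc]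
    _ = (p - 1) * ∑ j ∈ range f, n * (total n a (u ^ j * h) / n) := by
        congr 1
        refine Finset.sum_congr rfl fun j _ => ?_
        rw [Nat.mul_div_cancel' (dvd_total hsum _)]
    _ = _ := by
        rw [← Finset.mul_sum]
        ring

theorem sq_ne_general {L K : Type} [Field L] [CharZero L] [IsAlgClosed L] [Field K]
    [Fintype K] {p n m : ℕ} [hpf : Fact p.Prime] [NeZero n] (P : (ZMod n)ˣ)
    (hP : (P : ZMod n) = p) (hm : 0 < m) (hdvd : n ∣ Fintype.card K - 1)
    (hK : Fintype.card K = p ^ m)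
    {τ : MulChar K L} (hτ : orderOf τ = Fintype.card K - 1) {ψ : AddChar K L}
    (hψ : ψ.IsPrimitive) (u : Fin 5 → ℤ) (h : (ZMod n)ˣ)
    (hh : Odd (m + ∑ j ∈ range m, total n (resid u) (P ^ j * h) / n)) :
    ten (ch τ (u 0 : ZMod n)) (ch τ (u 1 : ZMod n)) (ch τ (u 2 : ZMod n)) (ch τ (u 3 : ZMod n))
        (ch τ (u 4 : ZMod n)) ψ *
      quad (ch τ (u 0 : ZMod n)) (ch τ (u 1 : ZMod n)) (ch τ (u 2 : ZMod n))
        (ch τ (u 3 : ZMod n)) (ch τ (u 4 : ZMod n)) ^ 2 ≠ 4 * (Fintype.card K : L) ^ 7 := by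
  classical
  intro heq
  have hp : p.Prime := hpf.out
  have hcop : Nat.Coprime p n := by
    rw [← ZMod.isUnit_iff_coprime, ← hP]
    exact P.isUnit
  have hpn : ¬ p ∣ n := (Nat.Prime.coprime_iff_not_dvd hp).1 hcop
  -- the divisibility
  have hq1 : 1 ≤ p ^ m := Nat.one_le_pow _ _ hp.pos
  have hcard : 0 < Fintype.card K - 1 := card_pos'
  have : NeZero (Fintype.card K - 1) := ⟨hcard.ne'⟩
  obtain ⟨J, hJ⟩ := ZMod.unitsMap_surjective hdvd h
  set j : ℕ := (J : ZMod (Fintype.card K - 1)).val with hj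
  set i : ℕ := ((J⁻¹ : (ZMod (Fintype.card K - 1))ˣ) : ZMod (Fintype.card K - 1)).val with hi
  have hjh : ((j : ℕ) : ZMod n) = h := by
    have h1 : ((j : ℕ) : ZMod (Fintype.card K - 1)) = J := ZMod.natCast_zmod_val _
    have h2 := congrArg (ZMod.castHom hdvd (ZMod n)) h1
    rw [map_natCast] at h2
    rw [h2, ← hJ]
    rfl
  have hij : i * j ≡ 1 [MOD (Fintype.card K - 1)] := by
    rw [← ZMod.natCast_eq_natCast_iff, Nat.cast_mul, hi, hj, ZMod.natCast_zmod_val,
      ZMod.natCast_zmod_val, ← Units.val_mul, inv_mul_cancel, Units.val_one, Nat.cast_one]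
  have hτj : (τ ^ i) ^ j = τ := by
    rw [← pow_mul]
    conv_rhs => rw [← pow_one τ]
    rw [pow_eq_pow_iff_modEq, hτ]
    exact hij
  have hτi : orderOf (τ ^ i) = Fintype.card K - 1 := by
    rw [Nat.Coprime.orderOf_pow, hτ]
    rw [hτ]
    exact (ZMod.val_coe_unit_coprime J⁻¹).symm
  -- the place
  have hcharK : CharP K p := charP_of_card_eq_prime_pow hK
  have hinj : Function.Injective (MulChar.toUnitHom (τ ^ i)) := by
    rw [injective_iff_map_eq_one]
    intro x hx
    have h1 : (τ ^ i) (x : K) = 1 := by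
      rw [← MulChar.coe_toUnitHom, hx, Units.val_one]
    have h2 := faithful hτi x.ne_zero h1
    exact Units.val_eq_one.1 h2
  obtain ⟨κ, _, _, φ, ι, hφ⟩ := Pool.Agent.Helper73.HD.exists_place (p := p)
    (MulChar.toUnitHom (τ ^ i)) hinj
  obtain ⟨Γ, _, v, hv1, hv2⟩ := exists_valuation φ
  obtain ⟨w, hw, hg⟩ := Pool.Agent.Helper40.QC.stickelberger φ ι (τ ^ i) v hK
    (fun t => by rw [← hφ t, MulChar.coe_toUnitHom]) hv2 ψ hψ
  have hvp : v (p : L) < 1 := by
    apply lt_of_le_of_ne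
    · have h1 := hv1 (p : integralClosure ℤ L)
      simpa using h1
    · intro h1
      have h2 := (hv2 (p : integralClosure ℤ L)).1 (by simpa using h1)
      apply h2
      rw [map_natCast]
      exact CharP.cast_eq_zero κ p
  have hvp0 : v (p : L) ≠ 0 := by
    rw [Ne, map_eq_zero]
    exact_mod_cast hp.ne_zero
  -- the value of the product of the Gauss sums
  set T := ∑ j ∈ range m, total n (resid u) (P ^ j * h) / n with hT
  have hten : v (ten (ch τ (u 0 : ZMod n)) (ch τ (u 1 : ZMod n)) (ch τ (u 2 : ZMod n))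
      (ch τ (u 3 : ZMod n)) (ch τ (u 4 : ZMod n)) ψ) = v (p : L) ^ T := by
    rw [ten_eq hτ hdvd, map_prod]
    have h1 : ∀ D : Fin 10, v (gaussSum (ch τ (resid u D : ZMod n))⁻¹ ψ) =
        w ^ (Nat.digits p ((p ^ m - 1) / n *
          ((h : ZMod n) * (resid u D : ZMod n)).val)).sum := by
      intro D
      rw [ch_twist hτi hτ hdvd hτj hjh, hK, hg]
      rw [hK] at hcard hdvd
      calc (p ^ m - 1) / n * ((h : ZMod n) * (resid u D : ZMod n)).val
          < (p ^ m - 1) / n * n := by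
            apply Nat.mul_lt_mul_of_pos_left (ZMod.val_lt _)
            exact Nat.div_pos (Nat.le_of_dvd hcard hdvd) (NeZero.pos n)
        _ = p ^ m - 1 := Nat.div_mul_cancel hdvd
    rw [Finset.prod_congr rfl fun D _ => h1 D, Finset.prod_pow_eq_pow_sum,
      digit_total' hp P hP hm (by rw [← hK]; exact hdvd) (sum_resid u) h, pow_mul, hw]
  -- the value of the character sum
  obtain ⟨z, hz⟩ := HasEnoughRootsOfUnity.exists_primitiveRoot L n
  have hq0 : quad (ch τ (u 0 : ZMod n)) (ch τ (u 1 : ZMod n)) (ch τ (u 2 : ZMod n))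
      (ch τ (u 3 : ZMod n)) (ch τ (u 4 : ZMod n)) ≠ 0 := by
    intro h0
    rw [h0, zero_pow two_ne_zero, mul_zero] at heq
    have h1 : (4 : L) * (Fintype.card K : L) ^ 7 ≠ 0 := by
      apply mul_ne_zero (by norm_num)
      apply pow_ne_zero
      exact_mod_cast Fintype.card_ne_zero
    exact h1 heq.symm
  obtain ⟨s, hs⟩ := v_cyclotomic_int v hpn hz hvp (quad_mem_adjoin hτ hdvd _ _ _ _ _ hz) hq0
  obtain ⟨c, hc⟩ := v_int_pow v hp hvp (m := 2) two_ne_zero
  have h4 : v (4 : L) = v (p : L) ^ (c * 2) := by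
    have : (4 : L) = ((2 : ℤ) : L) ^ 2 := by norm_num
    rw [this, map_pow, hc, ← pow_mul]
  have hfin := congrArg v heq
  rw [map_mul, map_mul, map_pow, map_pow, hten, hs, h4, hK, Nat.cast_pow,
    map_pow, ← pow_mul, ← pow_mul, ← pow_add, ← pow_add] at hfin
  have hexp : T + s * 2 = c * 2 + m * 7 :=
    (pow_right_strictAnti₀ (zero_lt_iff.2 hvp0) hvp).injective hfin
  obtain ⟨x, hx⟩ := hh
  omega

/-- an element killed by `N` is a multiple of `n / gcd (n, N)` -/
theorem exists_smul {n N : ℕ} [NeZero n] {a : ZMod n} (ha : ((N : ℕ) : ZMod n) * a = 0) :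
    ∃ v : ℤ, a = ((((n / n.gcd N : ℕ) : ℤ) * v : ℤ) : ZMod n) := by
  have hn : 0 < n := NeZero.pos n
  have hg : 0 < n.gcd N := Nat.gcd_pos_of_pos_left _ hn
  have h1 : n ∣ N * a.val := by
    rw [← ZMod.natCast_eq_zero_iff, Nat.cast_mul, ZMod.natCast_zmod_val]
    exact ha
  have h2 : n / n.gcd N ∣ N / n.gcd N * a.val := by
    obtain ⟨n', hn'⟩ := Nat.gcd_dvd_left n N
    obtain ⟨N', hN'⟩ := Nat.gcd_dvd_right n N
    set g := n.gcd N
    have e1 : n / g = n' := by
      conv_lhs => rw [hn']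
      exact Nat.mul_div_cancel_left _ hg
    have e2 : N / g = N' := by
      conv_lhs => rw [hN']
      exact Nat.mul_div_cancel_left _ hg
    rw [e1, e2]
    rw [hN', mul_assoc] at h1
    have h3 : g * n' ∣ g * (N' * a.val) := by
      rw [← hn']
      exact h1
    exact Nat.dvd_of_mul_dvd_mul_left hg h3
  have h3 := (Nat.coprime_div_gcd_div_gcd hg).dvd_of_dvd_mul_left h2
  obtain ⟨w, hw⟩ := h3
  refine ⟨w, ?_⟩
  rw [← ZMod.natCast_zmod_val a, hw, Int.cast_mul, Int.cast_natCast, Int.cast_natCast,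
    Nat.cast_mul]

theorem sq_ne_orbit {L K : Type} [Field L] [CharZero L] [IsAlgClosed L] [Field K]
    [Fintype K] {p n m : ℕ} [hpf : Fact p.Prime] [NeZero n] (hpn : p.Coprime n) (hm : 0 < m)
    (hK : Fintype.card K = p ^ m)
    {τ : MulChar K L} (hτ : orderOf τ = Fintype.card K - 1) {ψ : AddChar K L}
    (hψ : ψ.IsPrimitive) (a : Fin 5 → ZMod n) (ha : ∀ i, (p : ZMod n) ^ m * a i = a i)
    (h : (ZMod n)ˣ)
    (hh : Odd (m + ∑ j ∈ range m, height fun i => (h : ZMod n) * (p : ZMod n) ^ j * a i)) :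
    ten (ch τ (a 0)) (ch τ (a 1)) (ch τ (a 2)) (ch τ (a 3)) (ch τ (a 4)) ψ *
      quad (ch τ (a 0)) (ch τ (a 1)) (ch τ (a 2)) (ch τ (a 3)) (ch τ (a 4)) ^ 2 ≠
        4 * (Fintype.card K : L) ^ 7 := by
  have hp : p.Prime := hpf.out
  have hn0 : n ≠ 0 := NeZero.ne n
  have hkill : ∀ i, ((Fintype.card K - 1 : ℕ) : ZMod n) * a i = 0 := by
    intro i
    rw [hK, Nat.cast_sub (Nat.one_le_pow _ _ hp.pos), Nat.cast_one, Nat.cast_pow, sub_mul, ha,
      one_mul, sub_self]
  choose v hv using fun i => exists_smul (hkill i)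
  set d := n.gcd (Fintype.card K - 1) with hd
  set c := n / d with hc
  have hdn : d ∣ n := Nat.gcd_dvd_left _ _
  have hn : n = c * d := (Nat.div_mul_cancel hdn).symm
  have hd0 : d ≠ 0 := by
    rintro h0
    rw [h0, mul_zero] at hn
    exact hn0 hn
  have hc0 : 0 < c := by
    rcases c.eq_zero_or_pos with h0 | h0
    · rw [h0, zero_mul] at hn
      exact absurd hn hn0
    · exact h0
  have : NeZero d := ⟨hd0⟩
  have hdvd : d ∣ Fintype.card K - 1 := Nat.gcd_dvd_right _ _
  let P : (ZMod d)ˣ := ZMod.unitOfCoprime p (hpn.coprime_dvd_right hdn)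
  have hP : (P : ZMod d) = p := ZMod.coe_unitOfCoprime p _
  set h0 : (ZMod d)ˣ := ZMod.unitsMap hdn h with hh0
  have hch : ∀ i, ch τ (a i) = ch τ ((v i : ℤ) : ZMod d) := by
    intro i
    rw [ch, ch]
    congr 1
    have h1 : (a i).val = c * (((v i : ℤ) : ZMod d)).val := by
      rw [hv i]
      exact val_smul hn hn0 (v i)
    rw [h1]
    conv_lhs => rw [hn]
    rw [mul_left_comm]
    exact Nat.mul_div_mul_left _ _ hc0
  rw [hch 0, hch 1, hch 2, hch 3, hch 4]
  refine sq_ne_general P hP hm hdvd hK hτ hψ v h0 ?_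
  have h1 : ∀ j, (height fun i => (h : ZMod n) * (p : ZMod n) ^ j * a i) =
      total d (resid v) (P ^ j * h0) / d := by
    intro j
    have h2 : (h : ZMod n) * (p : ZMod n) ^ j =
        (((h : ZMod n).val * p ^ j : ℕ) : ZMod n) := by
      push_cast
      rw [ZMod.natCast_zmod_val]
    rw [h2, height_smul hn hn0 hv, total]
    congr 1
    refine sum_congr rfl fun i _ => ?_
    congr 2
    · have h3 : (((h : ZMod n).val : ℕ) : ZMod d) = h0 := by
        rw [hh0]
        have h4 : ((h : ZMod n).val : ZMod n) = h := ZMod.natCast_zmod_val _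
        have h5 := congrArg (ZMod.castHom hdn (ZMod d)) h4
        rw [map_natCast] at h5
        rw [h5]
        rfl
      push_cast
      rw [h3, hP, mul_comm]
  rw [← sum_congr rfl fun j _ => h1 j]
  exact hh

end Pool.Agent.Helper73.QC
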