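import Pool.Agent.Helper73.QC.Fun
import Pool.Agent.Helper73.LF.PiAdic

/-!
# The sums over the complement of the quadrilateral modulo a prime above `r`
-/

open Finset

namespace Pool.Agent.Helper73.QC

open Pool.Agent.Helper73.LF Pool.Agent.Helper73.KT

section

variable {K L : Type*} [Field K] [Fintype K] [Field L]

/-- the lift of the sum to the ring of algebraic integers -/
theorem quad_coe (A B C D E : MulChar K L) :
    ((∑ x, ∑ y, liftR A x * liftR B (1 - x) * liftR C y * liftR D (1 - y) * liftR E (x - y) :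
      integralClosure ℤ L) : L) = quad A B C D E := by
  rw [quad]
  have h := map_sum (algebraMap (integralClosure ℤ L) L)
    (fun x => ∑ y, liftR A x * liftR B (1 - x) * liftR C y * liftR D (1 - y) * liftR E (x - y))
    univ
  refine h.trans (sum_congr rfl fun x _ => ?_)
  have h' := map_sum (algebraMap (integralClosure ℤ L) L)
    (fun y => liftR A x * liftR B (1 - x) * liftR C y * liftR D (1 - y) * liftR E (x - y))
    univ
  exact h'.trans (sum_congr rfl fun y _ => rfl)

/-- the number of pairs of different elements different from `0` and `1` -/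
theorem sum_count {κ : Type*} [CommRing κ] [DecidableEq K] :
    ∑ x : K, ∑ y : K, (if x = 0 ∨ x = 1 ∨ y = 0 ∨ y = 1 ∨ x = y then (0 : κ) else 1) =
      ((Fintype.card K : κ) - 2) * ((Fintype.card K : κ) - 3) := by
  have h01 : (0 : K) ≠ 1 := zero_ne_one
  have h1 : ∀ x : K, ∑ y : K, (if x = 0 ∨ x = 1 ∨ y = 0 ∨ y = 1 ∨ x = y then (0 : κ) else 1) =
      (if x = 0 ∨ x = 1 then 0 else 1) * ((Fintype.card K : κ) - 3) := by
    intro x
    by_cases hx : x = 0 ∨ x = 1
    · rw [if_pos hx, zero_mul]
      refine sum_eq_zero fun y _ => ?_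
      rw [if_pos]
      tauto
    · rw [if_neg hx, one_mul]
      rw [not_or] at hx
      have e : ∀ y : K, (if x = 0 ∨ x = 1 ∨ y = 0 ∨ y = 1 ∨ x = y then (0 : κ) else 1) =
          1 - (if y = 0 then 1 else 0) - (if y = 1 then 1 else 0) - (if y = x then 1 else 0) := by
        intro y
        by_cases h0 : y = 0
        · subst h0
          rw [if_pos (Or.inr (Or.inr (Or.inl rfl))), if_pos rfl, if_neg h01,
            if_neg (Ne.symm hx.1)]
          ring
        by_cases h1 : y = 1
        · subst h1
          rw [if_pos (Or.inr (Or.inr (Or.inr (Or.inl rfl)))), if_neg h0, if_pos rfl,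
            if_neg (Ne.symm hx.2)]
          ring
        by_cases h2 : y = x
        · subst h2
          rw [if_pos (Or.inr (Or.inr (Or.inr (Or.inr rfl)))), if_neg h0, if_neg h1, if_pos rfl]
          ring
        · rw [if_neg (by tauto), if_neg h0, if_neg h1, if_neg h2]
          ring
      rw [sum_congr rfl fun y _ => e y, sum_sub_distrib, sum_sub_distrib, sum_sub_distrib,
        sum_ite_eq', sum_ite_eq', sum_ite_eq', if_pos (mem_univ _), if_pos (mem_univ _),
        if_pos (mem_univ _), sum_const, card_univ, nsmul_eq_mul, mul_one]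
      ring
  rw [sum_congr rfl fun x _ => h1 x, ← sum_mul]
  congr 1
  have e : ∀ x : K, (if x = 0 ∨ x = 1 then (0 : κ) else 1) =
      1 - (if x = 0 then 1 else 0) - (if x = 1 then 1 else 0) := by
    intro x
    by_cases h0 : x = 0
    · subst h0
      rw [if_pos (Or.inl rfl), if_pos rfl, if_neg h01]
      ring
    by_cases h1 : x = 1
    · subst h1
      rw [if_pos (Or.inr rfl), if_neg h0, if_pos rfl]
      ring
    · rw [if_neg (by tauto), if_neg h0, if_neg h1]
      ring
  rw [sum_congr rfl fun x _ => e x, sum_sub_distrib, sum_sub_distrib, sum_ite_eq', sum_ite_eq',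
    if_pos (mem_univ _), if_pos (mem_univ _), sum_const, card_univ, nsmul_eq_mul, mul_one]
  ring

/-- the sum for characters of order a power of an odd prime `r` -/
theorem quad_residue [CharZero L] {r e : ℕ} [Fact r.Prime] (hr : r ≠ 2) {A B C D E : MulChar K L}
    (hA : A ^ r ^ e = 1) (hB : B ^ r ^ e = 1) (hC : C ^ r ^ e = 1) (hD : D ^ r ^ e = 1)
    (hE : E ^ r ^ e = 1) (hK : Fintype.card K % r = 1) :
    quad A B C D E ≠ -2 * Fintype.card K := by
  classical
  have hrp : r.Prime := Fact.out
  obtain ⟨M, hM, hrM⟩ := exists_residue (L := L) r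
  let : Field (integralClosure ℤ L ⧸ M) := Ideal.Quotient.field M
  have hch : CharP (integralClosure ℤ L ⧸ M) r := by
    rw [CharP.charP_iff_prime_eq_zero hrp]
    have := Ideal.Quotient.eq_zero_iff_mem.2 hrM
    rwa [map_natCast] at this
  set φ := Ideal.Quotient.mk M with hφ
  have hone : ∀ {χ : MulChar K L}, χ ^ r ^ e = 1 → ∀ x : K, x ≠ 0 → φ (liftR χ x) = 1 := by
    intro χ hχ x hx
    apply eq_one_of_pow (r := r) (e := e)
    rw [← map_pow]
    have h1 : (liftR χ x) ^ r ^ e = 1 := by
      apply Subtype.ext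
      have h2 : χ x ^ r ^ e = 1 := by
        rw [← MulChar.pow_apply' χ (pow_pos hrp.pos e).ne', hχ,
          MulChar.one_apply (isUnit_iff_ne_zero.2 hx)]
      exact h2
    rw [h1, map_one]
  have hz : ∀ χ : MulChar K L, liftR χ 0 = 0 := fun χ => (liftR χ).map_nonunit not_isUnit_zero
  intro hS
  have h3 : (∑ x, ∑ y, liftR A x * liftR B (1 - x) * liftR C y * liftR D (1 - y) *
      liftR E (x - y) : integralClosure ℤ L) = -2 * (Fintype.card K : integralClosure ℤ L) := by
    apply Subtype.ext
    rw [quad_coe, hS]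
    simp only [neg_mul, NegMemClass.coe_neg, MulMemClass.coe_mul, SubringClass.coe_natCast,
      neg_inj, mul_eq_mul_right_iff, Nat.cast_eq_zero, Fintype.card_ne_zero, or_false]
    exact (map_ofNat (algebraMap (integralClosure ℤ L) L) 2).symm
  have h4 := congrArg φ h3
  rw [map_sum] at h4
  have h5 : ∀ x : K, φ (∑ y, liftR A x * liftR B (1 - x) * liftR C y * liftR D (1 - y) *
      liftR E (x - y)) =
        ∑ y : K, (if x = 0 ∨ x = 1 ∨ y = 0 ∨ y = 1 ∨ x = y then 0 else 1) := by
    intro x
    rw [map_sum]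
    refine sum_congr rfl fun y _ => ?_
    split_ifs with h
    · rcases h with h | h | h | h | h
      · rw [h, hz]; simp
      · rw [h, sub_self, hz]; simp
      · rw [h, hz]; simp
      · rw [h, sub_self, hz]; simp
      · rw [h, sub_self, hz]; simp
    · push Not at h
      rw [map_mul, map_mul, map_mul, map_mul, hone hA x h.1,
        hone hB _ (sub_ne_zero.2 (Ne.symm h.2.1)), hone hC y h.2.2.1,
        hone hD _ (sub_ne_zero.2 (Ne.symm h.2.2.2.1)), hone hE _ (sub_ne_zero.2 h.2.2.2.2)]
      ring
  rw [sum_congr rfl fun x _ => h5 x, sum_count] at h4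
  have h6 : (Fintype.card K : integralClosure ℤ L ⧸ M) = ((1 : ℕ) : integralClosure ℤ L ⧸ M) := by
    rw [CharP.natCast_eq_natCast (integralClosure ℤ L ⧸ M) r, Nat.ModEq, hK,
      Nat.mod_eq_of_lt hrp.one_lt]
  have h7 : ((4 : ℕ) : integralClosure ℤ L ⧸ M) = 0 := by
    rw [map_mul, map_neg, map_natCast, map_ofNat, h6] at h4
    push_cast at h4 ⊢
    linear_combination h4
  rw [CharP.cast_eq_zero_iff (integralClosure ℤ L ⧸ M) r] at h7
  have h8 : r ∣ 2 := by
    have : (4 : ℕ) = 2 ^ 2 := by norm_num
    rw [this] at h7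
    exact hrp.dvd_of_dvd_pow h7
  have h9 := Nat.le_of_dvd two_pos h8
  have := hrp.two_le
  omega

end

end Pool.Agent.Helper73.QC
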