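import Pool.Agent.Helper17.QC.ResTwo
import Pool.Agent.Helper73.LF.Lin
import Pool.Agent.Helper73.QC.Add

/-!
# Characters of order twice a power of an odd prime, and symmetric pairings
-/

open Module

namespace Pool.Agent.Helper73.QC

open Pool.Agent.Helper73.LF

section

variable {K L : Type*} [Field K] [Fintype K] [DecidableEq K] [Field L] [CharZero L]

omit [CharZero L] in
/-- a character with square one -/
theorem eq_eta {φ : MulChar K L} (hφ : φ ^ 2 = 1) (h1 : φ ≠ 1) :
    φ = eta K L := by
  have hsq : ∀ x : K, x ≠ 0 → φ x * φ x = 1 := fun x hx => sq_apply hφ hx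
  obtain ⟨g, hg⟩ : ∃ g : Kˣ, φ g ≠ 1 := by
    by_contra h
    push Not at h
    apply h1
    ext x
    rw [h x, MulChar.one_apply_coe]
  have hg1 : φ (g : K) = -1 := by
    have h3 := hsq g g.ne_zero
    have h4 : (φ (g : K) - 1) * (φ (g : K) + 1) = 0 := by linear_combination h3
    rcases mul_eq_zero.1 h4 with h5 | h5
    · exact absurd (sub_eq_zero.1 h5) hg
    · linear_combination h5
  have hs : ∀ x : K, x ≠ 0 → IsSquare x → φ x = 1 := by
    rintro x hx ⟨y, rfl⟩
    rw [map_mul]
    apply hsq
    rintro rfl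
    exact hx (mul_zero 0)
  have hgn : ¬ IsSquare (g : K) := fun h => hg (hs _ g.ne_zero h)
  ext x
  rw [eta_apply]
  by_cases hx : IsSquare (x : K)
  · rw [hs _ x.ne_zero hx, (quadraticChar_one_iff_isSquare x.ne_zero).2 hx, Int.cast_one]
  · have h3 : quadraticChar K (x : K) = -1 := quadraticChar_neg_one_iff_not_isSquare.2 hx
    have h4 : quadraticChar K (g : K) = -1 := quadraticChar_neg_one_iff_not_isSquare.2 hgn
    have h5 : quadraticChar K ((x : K) * g) = 1 := by rw [map_mul, h3, h4]; norm_num
    have h6 := (quadraticChar_one_iff_isSquare (mul_ne_zero x.ne_zero g.ne_zero)).1 h5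
    have h7 := hs _ (mul_ne_zero x.ne_zero g.ne_zero) h6
    rw [map_mul, hg1] at h7
    rw [h3]
    push_cast
    linear_combination - h7

omit [CharZero L] in
/-- the decomposition of a character of order dividing `2 N`, `N` odd -/
theorem decompose {χ : MulChar K L} {N : ℕ} (hN : Odd N)
    (hχ : χ ^ (2 * N) = 1) : ∃ (a : ℕ) (χ' : MulChar K L), χ = eta K L ^ a * χ' ∧ χ' ^ N = 1 ∧
      (Odd a → χ ^ N = eta K L) := by
  obtain ⟨j, hj⟩ := hN
  have hη2 : eta K L ^ 2 = 1 := (eta_quadratic (K := K) (L := L)).sq_eq_one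
  have h3 : (χ ^ N) ^ 2 = 1 := by rw [← pow_mul, mul_comm]; exact hχ
  by_cases h1 : χ ^ N = 1
  · exact ⟨0, χ, by rw [pow_zero, one_mul], h1, fun h => absurd h (by decide)⟩
  · have h4 := eq_eta h3 h1
    refine ⟨1, eta K L * χ, ?_, ?_, fun _ => h4⟩
    · rw [pow_one, ← mul_assoc, ← pow_two, hη2, one_mul]
    · rw [mul_pow, h4, hj, pow_succ, pow_mul, hη2, one_pow, one_mul, ← pow_two, hη2]

end

section

variable {L W : Type*} [Field L] [CharZero L] [AddCommGroup W] [Module L W]
  [FiniteDimensional L W]

/-- There is no Jordan block on a plane with a symmetric nondegenerate form. -/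
theorem symm_no_block {T : End L W} (b : W →ₗ[L] W →ₗ[L] L) {c : L} (hc : c ≠ 0)
    (hb : ∀ x y, b (T x) (T y) = c * b x y) (hs : ∀ x y, b x y = b y x)
    (hl : ∀ x, (∀ y, b x y = 0) → x = 0) (hdim : finrank L W ≤ 2) {a : L} {x : W}
    (h : (T - a • 1) ((T - a • 1) x) = 0) (hx : (T - a • 1) x ≠ 0) : False := by
  have hz : T ((T - a • 1) x) = a • (T - a • 1) x := by
    rw [← sub_eq_zero]
    exact h
  have hTx : T x = a • x + (T - a • 1) x := by
    rw [LinearMap.sub_apply, LinearMap.smul_apply, End.one_apply]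
    abel
  set z := (T - a • 1) x with hzdef
  have e1 := hb z z
  have e2 := hb x z
  have e3 := hb x x
  rw [hz] at e1 e2
  rw [hTx] at e2 e3
  simp only [map_add, map_smul, LinearMap.add_apply, LinearMap.smul_apply, smul_eq_mul] at e1 e2 e3
  rw [hs z x] at e3
  have hfin : b z z = 0 → b x z = 0 → False := by
    intro h5 h6
    apply hx
    apply hl
    intro y
    obtain ⟨s, t, rfl⟩ := mem_pair hdim h hx y
    rw [map_add, map_smul, map_smul, ← hzdef, h5, hs z x, h6, smul_zero, smul_zero, add_zero]
  by_cases hca : c = a ^ 2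
  · have ha : a ≠ 0 := by
      rintro rfl
      apply hc
      rw [hca]
      ring
    have h5 : b z z = 0 := by
      apply mul_left_cancel₀ ha
      rw [mul_zero]
      linear_combination e2 + b x z * hca
    have h6 : b x z = 0 := by
      apply mul_left_cancel₀ (mul_ne_zero two_ne_zero ha)
      rw [mul_zero]
      linear_combination e3 + b x x * hca - h5
    exact hfin h5 h6
  · have hca' : c - a ^ 2 ≠ 0 := sub_ne_zero.2 hca
    have h5 : b z z = 0 := by
      apply mul_left_cancel₀ hca'
      rw [mul_zero]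
      linear_combination - e1
    have h6 : b x z = 0 := by
      apply mul_left_cancel₀ hca'
      rw [mul_zero]
      linear_combination - e2 + a * h5
    exact hfin h5 h6

end

end Pool.Agent.Helper73.QC
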