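import Pool.Agent.Helper79.QC.Orders

/-!
# The two cases for exponents killed by twice a power of an odd prime
-/

open Finset

namespace Pool.Agent.Helper73.QC

/-- A power of `p` maps the exponents to their negatives or an odd power of `p` fixes them. -/
theorem dichotomy {p n : ℕ} [hp : Fact p.Prime] (hpn : p.Coprime n) (hn0 : n ≠ 0)
    {a : Fin 5 → ZMod n} {r j : ℕ} (hr : r.Prime) (hr2 : r ≠ 2)
    (hkill : ∀ i, 2 * (r : ZMod n) ^ j * a i = 0) :
    (∃ f, ∀ i, (p : ZMod n) ^ f * a i = - a i) ∨
      ∃ m, Odd m ∧ ∀ i, (p : ZMod n) ^ m * a i = a i := by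
  classical
  have : NeZero n := ⟨hn0⟩
  have hrodd := hr.odd_of_ne_two hr2
  let P : (ZMod n)ˣ := ZMod.unitOfCoprime p hpn
  have hP : (P : ZMod n) = p := ZMod.coe_unitOfCoprime p hpn
  have hex : ∃ m, 0 < m ∧ ∀ i, (p : ZMod n) ^ m * a i = a i := by
    refine ⟨orderOf P, orderOf_pos P, fun i => ?_⟩
    rw [← hP, ← Units.val_pow_eq_pow_val, pow_orderOf_eq_one, Units.val_one, one_mul]
  set m := Nat.find hex with hm
  obtain ⟨hm0, hma⟩ := Nat.find_spec hex
  have hmin : ∀ l, 0 < l → l < m → ¬ ∀ i, (p : ZMod n) ^ l * a i = a i := by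
    intro l hl hlm h
    exact Nat.find_min hex hlm ⟨hl, h⟩
  rcases Nat.even_or_odd m with ⟨q, hq⟩ | hmodd
  · -- the period is even
    left
    refine ⟨q, ?_⟩
    have hq0 : 0 < q := by omega
    have hsq : ∀ i, ((p : ZMod n) ^ q - 1) * (((p : ZMod n) ^ q + 1) * a i) = 0 := by
      intro i
      have h1 := hma i
      rw [← hm, hq, pow_add] at h1
      linear_combination h1
    have hpq : 1 ≤ p ^ q := Nat.one_le_pow _ _ hp.out.pos
    have hpar : ∀ w : ℕ, (w = p ^ q - 1 ∨ w = p ^ q + 1) → Odd n ∨ Even w := by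
      intro w hw
      rcases Nat.even_or_odd n with hn | hn
      · right
        have hpo : Odd p := by
          rw [← Nat.coprime_two_right]
          exact hpn.coprime_dvd_right hn.two_dvd
        obtain ⟨y, hy⟩ := hpo.pow (n := q)
        rcases hw with hw | hw
        · exact ⟨y, by omega⟩
        · exact ⟨y + 1, by omega⟩
      · left; exact hn
    -- an element killed by `x` prime to `r` and by `2 r ^ j`
    have hkey : ∀ (x w : ℕ), ¬ r ∣ x → (w = p ^ q - 1 ∨ w = p ^ q + 1) →
        (∀ i, (x : ZMod n) * ((w : ZMod n) * a i) = 0) → ∀ i, (w : ZMod n) * a i = 0 := by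
      intro x w hx hw hxw i
      refine half_zero hrodd (hkill i) (hpar w hw) ?_
      have hcop : IsCoprime (x : ℤ) ((r : ℤ) ^ j) := by
        refine IsCoprime.pow_right ?_
        rw [Nat.isCoprime_iff_coprime, Nat.coprime_comm]
        exact (hr.coprime_iff_not_dvd).2 hx
      obtain ⟨α, β, hαβ⟩ := hcop
      have h1 : (α : ZMod n) * x + (β : ZMod n) * (r : ZMod n) ^ j = 1 := by
        exact_mod_cast congrArg (Int.cast : ℤ → ZMod n) hαβ
      linear_combination (2 * (w : ZMod n) * a i) * (-h1) + 2 * (α : ZMod n) * hxw i +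
        (β : ZMod n) * (w : ZMod n) * hkill i
    by_cases hrd : r ∣ p ^ q + 1
    · have hnd : ¬ r ∣ p ^ q - 1 := by
        intro h
        have h2 : r ∣ (p ^ q + 1) - (p ^ q - 1) := Nat.dvd_sub hrd h
        have h3 : (p ^ q + 1) - (p ^ q - 1) = 2 := by omega
        rw [h3] at h2
        exact hr2 ((Nat.prime_dvd_prime_iff_eq hr Nat.prime_two).1 h2)
      intro i
      have h1 := hkey (p ^ q - 1) (p ^ q + 1) hnd (Or.inr rfl) (fun i => by
        rw [Nat.cast_sub hpq]
        push_cast
        exact hsq i) i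
      push_cast at h1
      linear_combination h1
    · exfalso
      refine hmin q hq0 (by omega) fun i => ?_
      have h1 := hkey (p ^ q + 1) (p ^ q - 1) hrd (Or.inl rfl) (fun i => by
        rw [Nat.cast_sub hpq]
        push_cast
        linear_combination hsq i) i
      rw [Nat.cast_sub hpq] at h1
      push_cast at h1
      linear_combination h1
  · exact Or.inr ⟨m, hmodd, hma⟩

end Pool.Agent.Helper73.QC
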