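import Pool.Agent.Helper73.QC.Good
import Pool.Agent.Helper79.QC.Gauss

/-!
# The criterion with the product of the ten exponents, for all primes `p` at once
-/

namespace Pool.Agent.Helper73.QC

open Pool.Agent.Helper79.QC Finset

/-- The exponents are `c` times integers such that minus the product of the ten exponents is not a
square modulo `r`, `n = c r ^ k`. -/
def NonResidue {n : ℕ} (a : Fin 5 → ZMod n) : Prop :=
  ∃ (r k c : ℕ) (v : Fin 5 → ℤ), r.Prime ∧ r ≠ 2 ∧ 0 < k ∧ n = c * r ^ k ∧
    (∀ i, a i = ((c * v i : ℤ) : ZMod n)) ∧ ¬ IsSquare ((-∏ i, residues v i : ℤ) : ZMod r)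

theorem nonResidue_imp {p n : ℕ} [hp : Fact p.Prime] (hpn : p.Coprime n) (hn0 : n ≠ 0)
    {a : Fin 5 → ZMod n} (h : NonResidue a) : SelfDual p a ∨ OddPlace p a := by
  obtain ⟨r, k, c, v, hr, hr2, hk, hn, ha, hns⟩ := h
  have : Fact r.Prime := ⟨hr⟩
  have : NeZero n := ⟨hn0⟩
  have : NeZero (r ^ k) := ⟨pow_ne_zero k hr.ne_zero⟩
  have hcop : p.Coprime (r ^ k) := hpn.coprime_dvd_right (Dvd.intro_left c hn.symm)
  -- transfer of an identity modulo `r ^ k`
  have trans : ∀ {x y : ℤ}, (x : ZMod (r ^ k)) = (y : ZMod (r ^ k)) →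
      ∀ w : ℤ, ((c * (x * w) : ℤ) : ZMod n) = ((c * (y * w) : ℤ) : ZMod n) := by
    intro x y hxy w
    have h1 : ((r ^ k : ℕ) : ℤ) ∣ x - y := by
      rw [← ZMod.intCast_zmod_eq_zero_iff_dvd, Int.cast_sub, hxy, sub_self]
    rw [← sub_eq_zero, ← Int.cast_sub, ZMod.intCast_zmod_eq_zero_iff_dvd, hn]
    obtain ⟨z, hz⟩ := h1
    refine ⟨z * w, ?_⟩
    have : (c : ℤ) * (x * w) - c * (y * w) = c * w * (x - y) := by ring
    rw [this, hz]
    push_cast
    ring
  by_cases hj : ∃ j, r ∣ p ^ j + 1
  · left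
    obtain ⟨j, hj⟩ := hj
    have hd := dvd_pow_add_one' (hr.odd_of_ne_two hr2) hj k
    rw [← pow_mul] at hd
    have hf : (((p : ℤ) ^ (j * r ^ k) : ℤ) : ZMod (r ^ k)) = ((-1 : ℤ) : ZMod (r ^ k)) := by
      have h1 : ((p ^ (j * r ^ k) + 1 : ℕ) : ZMod (r ^ k)) = 0 :=
        (ZMod.natCast_eq_zero_iff _ _).2 hd
      push_cast at h1 ⊢
      linear_combination h1
    have hkill : ∀ w : ℤ, (r : ZMod n) ^ k * ((c * w : ℤ) : ZMod n) = 0 := by
      intro w
      have h1 : ((c * r ^ k : ℕ) : ZMod n) = 0 := by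
        rw [← hn]
        exact ZMod.natCast_self n
      push_cast at h1 ⊢
      linear_combination (w : ZMod n) * h1
    refine ⟨j * r ^ k, r, k, hr, hr2, ?_, ?_, 0, ?_⟩
    · intro i
      have h1 := trans hf (v i)
      rw [ha i]
      push_cast at h1 ⊢
      linear_combination h1
    · intro i
      rw [ha i, mul_assoc, hkill, mul_zero]
    · change (r : ZMod n) ^ k * a 0 = 0
      rw [ha 0, hkill]
  · right
    let P : (ZMod (r ^ k))ˣ := ZMod.unitOfCoprime p hcop
    have hP : (P : ZMod (r ^ k)) = p := ZMod.coe_unitOfCoprime p hcop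
    set m := orderOf P with hm
    have hm0 : 0 < m := orderOf_pos P
    have hodd : Odd m := by
      rw [← Nat.not_even_iff_odd]
      rintro ⟨q, hq⟩
      apply hj
      refine ⟨q, ?_⟩
      have h1 : P ^ q ≠ 1 := by
        intro h1
        have := Nat.le_of_dvd (by omega) (orderOf_dvd_of_pow_eq_one h1)
        omega
      have h2 : P ^ (q + q) = 1 := by rw [← hq, hm, pow_orderOf_eq_one]
      have hp1 : 1 ≤ p ^ q := Nat.one_le_pow _ _ hp.out.pos
      have h3 : r ^ k ∣ (p ^ q - 1) * (p ^ q + 1) := by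
        have h4 := congrArg Units.val h2
        rw [Units.val_pow_eq_pow_val, hP, Units.val_one, pow_add] at h4
        rw [← ZMod.natCast_eq_zero_iff, Nat.cast_mul, Nat.cast_sub hp1]
        push_cast
        linear_combination h4
      by_contra hnd
      have h4 : (r ^ k).Coprime (p ^ q + 1) :=
        ((Nat.Prime.coprime_iff_not_dvd hr).2 hnd).pow_left k
      have h5 := h4.dvd_of_dvd_mul_right h3
      apply h1
      rw [Units.ext_iff, Units.val_pow_eq_pow_val, hP, Units.val_one]
      rw [← ZMod.natCast_eq_zero_iff, Nat.cast_sub hp1] at h5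
      push_cast at h5
      linear_combination h5
    have hdv : ∀ D, ¬ (r : ℤ) ∣ residues v D := by
      intro D hD
      apply hns
      have h1 : (r : ℤ) ∣ -∏ i, residues v i := by
        rw [dvd_neg]
        exact hD.trans (Finset.dvd_prod_of_mem _ (mem_univ D))
      rw [(ZMod.intCast_zmod_eq_zero_iff_dvd _ r).mpr h1]
      exact IsSquare.zero
    obtain ⟨h0, hh⟩ := exists_even hr2 hk ⟨5, rfl⟩ (residues v) hdv (sum_residues v) hns
      (Subgroup.zpowers P) (by rw [Nat.card_zpowers]; exact hodd)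
    rw [finsum_zpowers P (fun x => total (r ^ k) (residues v) (x * h0) / r ^ k)] at hh
    obtain ⟨h, hh0⟩ := ZMod.unitsMap_surjective (Dvd.intro_left c hn.symm) h0
    refine ⟨m, hm0, ?_, h, ?_⟩
    · intro i
      have h1 : (((p : ℤ) ^ m : ℤ) : ZMod (r ^ k)) = ((1 : ℤ) : ZMod (r ^ k)) := by
        have h4 := congrArg Units.val (pow_orderOf_eq_one P)
        rw [Units.val_pow_eq_pow_val, hP, Units.val_one] at h4
        push_cast
        exact h4
      have h2 := trans h1 (v i)
      rw [ha i]
      push_cast at h2 ⊢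
      linear_combination h2
    · refine hodd.add_even ?_
      have h1 : ∀ j, (height fun i => (h : ZMod n) * (p : ZMod n) ^ j * a i) =
          total (r ^ k) (residues v) (P ^ j * h0) / r ^ k := by
        intro j
        have h2 : (h : ZMod n) * (p : ZMod n) ^ j =
            (((h : ZMod n).val * p ^ j : ℕ) : ZMod n) := by
          push_cast
          rw [ZMod.natCast_zmod_val]
        rw [h2, height_smul hn hn0 ha, total]
        congr 1
        refine sum_congr rfl fun i _ => ?_
        congr 2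
        have h3 : (((h : ZMod n).val : ℕ) : ZMod (r ^ k)) = h0 := by
          rw [← hh0]
          have h4 : ((h : ZMod n).val : ZMod n) = h := ZMod.natCast_zmod_val _
          have h5 := congrArg (ZMod.castHom (Dvd.intro_left c hn.symm) (ZMod (r ^ k))) h4
          rw [map_natCast] at h5
          rw [h5]
          rfl
        push_cast
        rw [h3, hP, mul_comm]
      rw [sum_congr rfl fun j _ => h1 j]
      exact hh

end Pool.Agent.Helper73.QC
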