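import Pool.Agent.Helper73.QC.Neg
import Pool.Agent.Helper73.QC.Add
import Pool.Agent.Helper73.LF.Chars

/-!
# The quadratic part of the ten exponents
-/

open Finset

namespace Pool.Agent.Helper73.QC

open Pool.Agent.Helper73.LF Pool.Agent.Helper73.KT

variable {K L : Type} [Field K] [Fintype K] [DecidableEq K] [Field L] [CharZero L] {n : ℕ}
  [NeZero n] {τ : MulChar K L}

omit [DecidableEq K] [CharZero L] in
theorem ch_smul (hτ : orderOf τ = Fintype.card K - 1) {a : ZMod n}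
    (ha : ((Fintype.card K - 1 : ℕ) : ZMod n) * a = 0) (d : ℕ) :
    ch τ ((d : ZMod n) * a) = ch τ a ^ d := by
  induction d with
  | zero =>
    rw [Nat.cast_zero, zero_mul, pow_zero, ch, ZMod.val_zero, mul_zero, Nat.zero_div, pow_zero]
  | succ d ih =>
    have h1 : ((Fintype.card K - 1 : ℕ) : ZMod n) * ((d : ZMod n) * a) = 0 := by
      rw [mul_left_comm, ha, mul_zero]
    rw [Nat.cast_succ, add_mul, one_mul, ch_add hτ h1 ha, ih, pow_succ]

/-- the values `1` and `eta` -/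
noncomputable def E2 (K L : Type) [Field K] [Fintype K] [DecidableEq K] [Field L]
    (t : ZMod 2) : MulChar K L := eta K L ^ t.val

omit [CharZero L] in
theorem eta_sq : eta K L * eta K L = 1 := by
  rw [← pow_two]
  exact (eta_quadratic (K := K) (L := L)).sq_eq_one

omit [CharZero L] in
theorem E2_add (s t : ZMod 2) : E2 K L (s + t) = E2 K L s * E2 K L t := by
  have h : ∀ s t : ZMod 2, s.val + t.val =
      (s + t).val + 2 * ((s.val + t.val - (s + t).val) / 2) := by decide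
  have hk := h s t
  rw [E2, E2, E2, ← pow_add, hk, pow_add, pow_mul, pow_two, eta_sq, one_pow, mul_one]

omit [CharZero L] in
theorem E2_neg (s : ZMod 2) : E2 K L (-s) = (E2 K L s)⁻¹ := by
  rw [eq_inv_iff_mul_eq_one, ← E2_add, neg_add_cancel, E2, ZMod.val_zero, pow_zero]

omit [CharZero L] in
theorem E2_odd (b : ℕ) : E2 K L (if decide (Odd b) then (1 : ZMod 2) else 0) = eta K L ^ b := by
  rcases Nat.even_or_odd b with h | h
  · have h' : ¬ Odd b := Nat.not_odd_iff_even.2 h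
    obtain ⟨m, rfl⟩ := h
    rw [decide_eq_false h', if_neg (by decide), E2, ZMod.val_zero, pow_zero, pow_add, ← mul_pow,
      eta_sq, one_pow]
  · rw [decide_eq_true h, if_pos rfl, E2]
    obtain ⟨m, rfl⟩ := h
    have : (1 : ZMod 2).val = 1 := rfl
    rw [this, pow_one, pow_succ, pow_mul, pow_two, eta_sq, one_pow, one_mul]

omit [DecidableEq K] [CharZero L] [Field K] [NeZero n] in
theorem hadd_kill {b c : ZMod n} (hb : ((Fintype.card K - 1 : ℕ) : ZMod n) * b = 0)
    (hc : ((Fintype.card K - 1 : ℕ) : ZMod n) * c = 0) :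
    ((Fintype.card K - 1 : ℕ) : ZMod n) * (b + c) = 0 := by
  rw [mul_add, hb, hc, add_zero]

omit [CharZero L] in
theorem many_of (hτ : orderOf τ = Fintype.card K - 1) {a : Fin 5 → ZMod n}
    (ha : ∀ i, ((Fintype.card K - 1 : ℕ) : ZMod n) * a i = 0) {b : Fin 5 → ℕ} {N : ℕ}
    (hb : ∀ i, ch τ (a i) ^ N = eta K L ^ b i)
    (h5 : 5 ≤ (univ.filter fun i => (N : ZMod n) * residues a i ≠ 0).card) :
    many fun i => decide (Odd (b i)) := by
  classical
  set e : Fin 5 → ZMod 2 := fun k => if decide (Odd (b k)) then (1 : ZMod 2) else 0 with he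
  have hg : ∀ k, ch τ (a k) ^ N = E2 K L (e k) := fun k => by rw [hb, he, E2_odd]
  -- sums
  have add : ∀ {x y : ZMod n} {s t : ZMod 2}, ((Fintype.card K - 1 : ℕ) : ZMod n) * x = 0 ∧
      ch τ x ^ N = E2 K L s → ((Fintype.card K - 1 : ℕ) : ZMod n) * y = 0 ∧
      ch τ y ^ N = E2 K L t → ((Fintype.card K - 1 : ℕ) : ZMod n) * (x + y) = 0 ∧
        ch τ (x + y) ^ N = E2 K L (s + t) := by
    rintro x y s t ⟨hx, ex⟩ ⟨hy, ey⟩
    exact ⟨hadd_kill hx hy, by rw [ch_add hτ hx hy, mul_pow, ex, ey, E2_add]⟩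
  have neg : ∀ {x : ZMod n} {s : ZMod 2}, ((Fintype.card K - 1 : ℕ) : ZMod n) * x = 0 ∧
      ch τ x ^ N = E2 K L s → ((Fintype.card K - 1 : ℕ) : ZMod n) * (-x) = 0 ∧
        ch τ (-x) ^ N = E2 K L (-s) := by
    rintro x s ⟨hx, ex⟩
    exact ⟨by rw [mul_neg, hx, neg_zero], by rw [ch_neg hτ hx, inv_pow, ex, E2_neg]⟩
  have h0 : ∀ k, ((Fintype.card K - 1 : ℕ) : ZMod n) * a k = 0 ∧ ch τ (a k) ^ N = E2 K L (e k) :=
    fun k => ⟨ha k, hg k⟩
  have hres : ∀ i, ((Fintype.card K - 1 : ℕ) : ZMod n) * residues a i = 0 ∧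
      ch τ (residues a i) ^ N = E2 K L (residues e i) := by
    intro i
    fin_cases i
    · exact h0 0
    · exact h0 1
    · exact h0 2
    · exact h0 3
    · exact h0 4
    · exact neg (add (add (h0 0) (h0 1)) (h0 4))
    · exact neg (add (add (h0 2) (h0 3)) (h0 4))
    · exact add (add (h0 0) (h0 2)) (h0 4)
    · exact add (add (h0 1) (h0 3)) (h0 4)
    · exact neg (add (add (add (add (h0 0) (h0 1)) (h0 2)) (h0 3)) (h0 4))
  refine le_trans h5 (card_le_card ?_)
  intro i hi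
  rw [mem_filter] at hi ⊢
  refine ⟨hi.1, fun h => hi.2 ?_⟩
  by_contra hne
  have h1 : ((Fintype.card K - 1 : ℕ) : ZMod n) * ((N : ZMod n) * residues a i) = 0 := by
    rw [mul_left_comm, (hres i).1, mul_zero]
  apply ch_ne_one hτ h1 hne
  have h2 : residues e i = 0 := h
  rw [ch_smul hτ (hres i).1, (hres i).2, h2, E2, ZMod.val_zero, pow_zero]

end Pool.Agent.Helper73.QC
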