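import Pool.Agent.Helper17.QC.ResTwo
import Pool.Agent.Helper73.QC.Two
import Pool.Agent.Helper73.QC.Defs
import Pool.Agent.Helper79.QC.Orders

/-!
# Quadratic twists if `-1` is not a square
-/

open Finset

namespace Pool.Agent.Helper73.QC

open Pool.Agent.Helper73.LF Pool.Agent.Helper73.KT

section two

variable {K κ : Type*} [Field K] [Fintype K] [Field κ] {ρ : MulChar K κ}

/-- the character `ρ` or the trivial character -/
noncomputable def pw (ρ : MulChar K κ) (b : Bool) : MulChar K κ := if b then ρ else 1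

/-- the value of the Jacobi sum -/
noncomputable def sg (κ : Type*) [Field κ] (a b : Bool) : κ := if a && b then 1 else -1

omit [Fintype K] in
theorem pw_mul (hρρ : ρ * ρ = 1) (a b : Bool) : pw ρ a * pw ρ b = pw ρ (xor a b) := by
  cases a <;> cases b <;> simp [pw, hρρ]

theorem jac_pw (hρ1 : ρ ≠ 1) (hρρ : ρ * ρ = 1) (hneg : ρ (-1) = -1)
    (hq : (Fintype.card K : κ) = 1) (a b : Bool) : ∑ x, pw ρ a x * pw ρ b (1 - x) = sg κ a b := by
  classical
  have hinv : ρ⁻¹ = ρ := inv_eq_of_mul_eq_one_right hρρ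
  change jacobiSum (pw ρ a) (pw ρ b) = _
  cases a <;> cases b
  · simp only [pw, sg]
    simp only [Bool.false_eq_true, if_false, Bool.and_self]
    rw [jacobiSum_one_one, hq]
    ring
  · simp only [pw, sg]
    simp only [Bool.false_eq_true, if_false, if_true, Bool.false_and]
    exact jacobiSum_one_nontrivial hρ1
  · simp only [pw, sg]
    simp only [Bool.false_eq_true, if_false, if_true, Bool.and_false]
    rw [jacobiSum_comm]
    exact jacobiSum_one_nontrivial hρ1
  · simp only [pw, sg]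
    simp only [if_true, Bool.and_self]
    have h := jacobiSum_nontrivial_inv hρ1
    rw [hinv, hneg, neg_neg] at h
    exact h

theorem quad_pw_false (hρ1 : ρ ≠ 1) (hρρ : ρ * ρ = 1) (hneg : ρ (-1) = -1)
    (hq : (Fintype.card K : κ) = 1) (a b c d : Bool) :
    quad (pw ρ a) (pw ρ b) (pw ρ c) (pw ρ d) 1 =
      sg κ a b * sg κ c d - sg κ (xor a c) (xor b d) := by
  classical
  have j1 := jac_pw hρ1 hρρ hneg hq a b
  have j2 := jac_pw hρ1 hρρ hneg hq c d
  have j3 := jac_pw hρ1 hρρ hneg hq (xor a c) (xor b d)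
  rw [← pw_mul hρρ, ← pw_mul hρρ] at j3
  simp only [MulChar.mul_apply] at j3
  set A := pw ρ a
  set B := pw ρ b
  set C := pw ρ c
  set D := pw ρ d
  have e : ∀ x y : K, A x * B (1 - x) * C y * D (1 - y) * (1 : MulChar K κ) (x - y) =
      (A x * B (1 - x)) * (C y * D (1 - y)) -
        (if y = x then A x * B (1 - x) * (C y * D (1 - y)) else 0) := by
    intro x y
    rw [one_val]
    by_cases h : y = x
    · subst h
      rw [sub_self, if_pos rfl, if_pos rfl]
      ring
    · rw [if_neg (sub_ne_zero.2 (Ne.symm h)), if_neg h]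
      ring
  rw [quad, sum_congr rfl fun x _ => sum_congr rfl fun y _ => e x y]
  have e2 : ∀ x : K, ∑ y, ((A x * B (1 - x)) * (C y * D (1 - y)) -
      (if y = x then A x * B (1 - x) * (C y * D (1 - y)) else 0)) =
      (A x * B (1 - x)) * sg κ c d - A x * C x * (B (1 - x) * D (1 - x)) := by
    intro x
    rw [sum_sub_distrib, ← mul_sum, j2, sum_ite_eq', if_pos (mem_univ _)]
    ring
  rw [sum_congr rfl fun x _ => e2 x, sum_sub_distrib, ← sum_mul, j1, j3]

omit [Fintype K] in
theorem neg_arg (hneg : ρ (-1) = -1) (x : K) : ρ (-x) = - ρ x := by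
  rw [← neg_one_mul, map_mul, hneg, neg_one_mul]

theorem fib_ff (hρ1 : ρ ≠ 1) (hneg : ρ (-1) = -1) (y : K) :
    fib 1 1 ρ y = ρ y - ρ (1 - y) := by
  classical
  have e : ∀ x : K, (1 : MulChar K κ) x * (1 : MulChar K κ) (1 - x) * ρ (x - y) =
      ρ (x - y) - (if x = 0 then ρ (x - y) else 0) - (if x = 1 then ρ (x - y) else 0) := by
    intro x
    rw [one_val, one_val]
    by_cases h0 : x = 0
    · subst h0
      rw [if_pos rfl, if_pos rfl, if_neg zero_ne_one]
      ring
    by_cases h1 : x = 1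
    · subst h1
      rw [sub_self, if_pos rfl, if_neg h0, if_pos rfl, if_neg h0]
      ring
    · rw [if_neg h0, if_neg h0, if_neg h1, if_neg (sub_ne_zero.2 (Ne.symm h1))]
      ring
  rw [fib, sum_congr rfl fun x _ => e x, sum_sub_distrib, sum_sub_distrib, sum_shift hρ1,
    sum_ite_eq', sum_ite_eq', if_pos (mem_univ _), if_pos (mem_univ _), zero_sub, zero_sub,
    neg_arg hneg]
  ring

theorem sum_pair_neg (hρ1 : ρ ≠ 1) (hρρ : ρ * ρ = 1) (hneg : ρ (-1) = -1)
    (hq : (Fintype.card K : κ) = 1) {y : K} (hy : y ≠ 0) : ∑ x, ρ x * ρ (x - y) = -1 := by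
  have h1 := jac_pw hρ1 hρρ hneg hq true true
  simp only [pw, sg] at h1
  simp only [if_true, Bool.and_self] at h1
  have h2 : ∑ x, ρ x * ρ (x - y) = - ∑ x, ρ x * ρ (1 - x) := by
    rw [← Equiv.sum_comp (Equiv.mulLeft₀ y hy), ← sum_neg_distrib]
    refine sum_congr rfl fun t _ => ?_
    rw [Equiv.mulLeft₀_apply]
    have e : y * t - y = y * (-1 * (1 - t)) := by ring
    have h2 : ρ y * ρ y = 1 := by
      rw [← MulChar.mul_apply, hρρ, MulChar.one_apply (isUnit_iff_ne_zero.2 hy)]
    rw [e, map_mul, map_mul, map_mul, hneg]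
    linear_combination (-(ρ t * ρ (1 - t))) * h2
  rw [h2, h1]

theorem fib_tf (hρ1 : ρ ≠ 1) (hρρ : ρ * ρ = 1) (hneg : ρ (-1) = -1)
    (hq : (Fintype.card K : κ) = 1) {y : K} (hy : y ≠ 0) : fib ρ 1 ρ y = - 1 - ρ (1 - y) := by
  classical
  have e : ∀ x : K, ρ x * (1 : MulChar K κ) (1 - x) * ρ (x - y) =
      ρ x * ρ (x - y) - (if x = 1 then ρ x * ρ (x - y) else 0) := by
    intro x
    rw [one_val]
    by_cases h1 : x = 1
    · subst h1
      rw [sub_self, if_pos rfl, if_pos rfl]
      ring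
    · rw [if_neg h1, if_neg (sub_ne_zero.2 (Ne.symm h1))]
      ring
  rw [fib, sum_congr rfl fun x _ => e x, sum_sub_distrib, sum_pair_neg hρ1 hρρ hneg hq hy,
    sum_ite_eq', if_pos (mem_univ _), map_one, one_mul]

theorem fib_ft (hρ1 : ρ ≠ 1) (hρρ : ρ * ρ = 1) (hneg : ρ (-1) = -1)
    (hq : (Fintype.card K : κ) = 1) {y : K} (hy : y ≠ 1) : fib 1 ρ ρ y = 1 + ρ y := by
  classical
  have e : ∀ x : K, (1 : MulChar K κ) x * ρ (1 - x) * ρ (x - y) =
      ρ (1 - x) * ρ (x - y) - (if x = 0 then ρ (1 - x) * ρ (x - y) else 0) := by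
    intro x
    rw [one_val]
    by_cases h1 : x = 0
    · subst h1
      rw [if_pos rfl, if_pos rfl]
      ring
    · rw [if_neg h1, if_neg h1]
      ring
  have h3 : ∑ x, ρ (1 - x) * ρ (x - y) = 1 := by
    have h4 := sum_pair_neg hρ1 hρρ hneg hq (sub_ne_zero.2 (Ne.symm hy) : (1 : K) - y ≠ 0)
    rw [← Equiv.sum_comp (Equiv.subLeft (1 : K))] at h4
    have h5 : ∀ x : K, ρ (Equiv.subLeft (1 : K) x) * ρ (Equiv.subLeft (1 : K) x - (1 - y)) =
        - (ρ (1 - x) * ρ (x - y)) := by
      intro x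
      rw [Equiv.subLeft_apply]
      have e2 : (1 : K) - x - (1 - y) = - (x - y) := by ring
      rw [e2, neg_arg hneg]
      ring
    rw [sum_congr rfl fun x _ => h5 x, sum_neg_distrib] at h4
    linear_combination -h4
  rw [fib, sum_congr rfl fun x _ => e x, sum_sub_distrib, h3, sum_ite_eq',
    if_pos (mem_univ _), sub_zero, map_one, one_mul, zero_sub, neg_arg hneg]
  ring

theorem quad_symm_neg (hneg : ρ (-1) = -1) (A B C D : MulChar K κ) :
    quad A B C D ρ = - quad C D A B ρ := by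
  rw [quad, quad, sum_comm, ← sum_neg_distrib]
  refine sum_congr rfl fun y _ => ?_
  rw [← sum_neg_distrib]
  refine sum_congr rfl fun x _ => ?_
  have e : x - y = - (y - x) := by ring
  rw [e, neg_arg hneg]
  ring

theorem quad_ff (hρ1 : ρ ≠ 1) (hρρ : ρ * ρ = 1) (hneg : ρ (-1) = -1)
    (hq : (Fintype.card K : κ) = 1) (c d : Bool) :
    quad 1 1 (pw ρ c) (pw ρ d) ρ = sg κ (xor c true) d - sg κ c (xor d true) := by
  have j1 := jac_pw hρ1 hρρ hneg hq (xor c true) d
  have j2 := jac_pw hρ1 hρρ hneg hq c (xor d true)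
  rw [← pw_mul hρρ] at j1 j2
  simp only [MulChar.mul_apply] at j1 j2
  have ht : pw ρ true = ρ := rfl
  rw [ht] at j1 j2
  rw [quad_eq, sum_weight _ _ _ (fun y => ρ y - ρ (1 - y)) fun y _ _ => fib_ff hρ1 hneg y]
  have e : ∀ y : K, pw ρ c y * pw ρ d (1 - y) * (ρ y - ρ (1 - y)) =
      pw ρ c y * ρ y * pw ρ d (1 - y) - pw ρ c y * (pw ρ d (1 - y) * ρ (1 - y)) := fun y => by ring
  rw [sum_congr rfl fun y _ => e y, sum_sub_distrib, j1, j2]

theorem quad_tf (hρ1 : ρ ≠ 1) (hρρ : ρ * ρ = 1) (hneg : ρ (-1) = -1)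
    (hq : (Fintype.card K : κ) = 1) (c d : Bool) :
    quad ρ 1 (pw ρ c) (pw ρ d) ρ = - sg κ c d - sg κ c (xor d true) := by
  have j1 := jac_pw hρ1 hρρ hneg hq c d
  have j2 := jac_pw hρ1 hρρ hneg hq c (xor d true)
  rw [← pw_mul hρρ] at j2
  simp only [MulChar.mul_apply] at j2
  have ht : pw ρ true = ρ := rfl
  rw [ht] at j2
  rw [quad_eq, sum_weight _ _ _ (fun y => - 1 - ρ (1 - y)) fun y h _ => fib_tf hρ1 hρρ hneg hq h]
  have e : ∀ y : K, pw ρ c y * pw ρ d (1 - y) * (- 1 - ρ (1 - y)) =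
      - (pw ρ c y * pw ρ d (1 - y)) - pw ρ c y * (pw ρ d (1 - y) * ρ (1 - y)) := fun y => by ring
  rw [sum_congr rfl fun y _ => e y, sum_sub_distrib, sum_neg_distrib, j1, j2]

theorem quad_ft (hρ1 : ρ ≠ 1) (hρρ : ρ * ρ = 1) (hneg : ρ (-1) = -1)
    (hq : (Fintype.card K : κ) = 1) (c d : Bool) :
    quad 1 ρ (pw ρ c) (pw ρ d) ρ = sg κ c d + sg κ (xor c true) d := by
  have j1 := jac_pw hρ1 hρρ hneg hq c d
  have j2 := jac_pw hρ1 hρρ hneg hq (xor c true) d
  rw [← pw_mul hρρ] at j2
  simp only [MulChar.mul_apply] at j2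
  have ht : pw ρ true = ρ := rfl
  rw [ht] at j2
  rw [quad_eq, sum_weight _ _ _ (fun y => 1 + ρ y) fun y _ h => fib_ft hρ1 hρρ hneg hq h]
  have e : ∀ y : K, pw ρ c y * pw ρ d (1 - y) * (1 + ρ y) =
      pw ρ c y * pw ρ d (1 - y) + pw ρ c y * ρ y * pw ρ d (1 - y) := fun y => by ring
  rw [sum_congr rfl fun y _ => e y, sum_add_distrib, j1, j2]

/-- the number of ramified curves of the quadratic part -/
def many (e : Fin 5 → Bool) : Prop :=
  5 ≤ (univ.filter fun i => residues (fun k => if e k then (1 : ZMod 2) else 0) i ≠ 0).card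

instance (e : Fin 5 → Bool) : Decidable (many e) := by unfold many; infer_instance

/-- If `-1` is not a square and at least five (that is, six or ten) of the ten curves are ramified
in the quadratic part, the sum vanishes. -/
theorem quad_many (hρ1 : ρ ≠ 1) (hρρ : ρ * ρ = 1) (hneg : ρ (-1) = -1)
    (hq : (Fintype.card K : κ) = 1) (h2 : (2 : κ) ≠ 0) (a b c d e : Bool)
    (h : many ![a, b, c, d, e]) :
    quad (pw ρ a) (pw ρ b) (pw ρ c) (pw ρ d) (pw ρ e) = 0 := by
  have f0 : pw ρ false = 1 := rfl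
  have t0 : pw ρ true = ρ := rfl
  have F := fun a b c d => quad_pw_false hρ1 hρρ hneg hq a b c d
  have FF := fun c d => quad_ff hρ1 hρρ hneg hq c d
  have TF := fun c d => quad_tf hρ1 hρρ hneg hq c d
  have FT := fun c d => quad_ft hρ1 hρρ hneg hq c d
  have S := fun A B C D => quad_symm_neg hneg (A : MulChar K κ) B C D
  revert h
  cases e
  · rw [f0, F]
    cases a <;> cases b <;> cases c <;> cases d <;>
      first
      | (intro h; exact absurd h (by decide))
      | (intro _; simp [sg])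
  · cases a <;> cases b
    · rw [f0, t0, FF]
      cases c <;> cases d <;>
        first
        | (intro h; exact absurd h (by decide))
        | (intro _; simp [sg])
    · rw [f0, t0, FT]
      cases c <;> cases d <;>
        first
        | (intro h; exact absurd h (by decide))
        | (intro _; simp [sg])
    · rw [f0, t0, TF]
      cases c <;> cases d <;>
        first
        | (intro h; exact absurd h (by decide))
        | (intro _; simp [sg])
    · rw [t0, S]
      intro _
      cases c <;> cases d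
      · have := FF true true
        rw [t0] at this
        rw [f0, this]
        simp [sg]
      · have := FT true true
        rw [t0] at this
        rw [f0, t0, this]
        simp [sg]
      · have := TF true true
        rw [t0] at this
        rw [f0, t0, this]
        simp [sg]
      · rw [t0]
        have h3 := S ρ ρ ρ ρ
        have h4 : (2 : κ) * quad ρ ρ ρ ρ ρ = 0 := by linear_combination h3
        rcases mul_eq_zero.1 h4 with h5 | h5
        · exact absurd h5 h2
        · rw [h5, neg_zero]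

end two

section

universe v w

variable {K : Type v} {L : Type w} [Field K] [Fintype K] [DecidableEq K] [Field L]

/-- There is no Jordan block if `-1` is not a square and at least five curves are ramified in the
quadratic part. -/
theorem no_double [CharZero L] {r j : ℕ} [Fact r.Prime] (hr : r ≠ 2) (h2 : ringChar K ≠ 2)
    (hneg : quadraticChar K (-1) = -1) {χ χ' : Fin 5 → MulChar K L} {b : Fin 5 → ℕ}
    (hχ : ∀ i, χ i = eta K L ^ b i * χ' i) (hχ' : ∀ i, χ' i ^ r ^ j = 1)
    (hmany : many fun i => decide (Odd (b i))) (hK : Fintype.card K % r = 1) {c : L} (hc : c ≠ 0)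
    (hS : quad (χ 0) (χ 1) (χ 2) (χ 3) (χ 4) = 2 * c)
    (hS' : quad (χ 0)⁻¹ (χ 1)⁻¹ (χ 2)⁻¹ (χ 3)⁻¹ (χ 4)⁻¹ = 2 * ((Fintype.card K : L) ^ 2 / c)) :
    False := by
  have hrp : r.Prime := Fact.out
  obtain ⟨κ, _, φ, hch⟩ := exists_hom L r
  have h20 : (2 : κ) ≠ 0 := by
    intro h
    have h1 : ((2 : ℕ) : κ) = 0 := by exact_mod_cast h
    rw [CharP.cast_eq_zero_iff κ r] at h1
    have h9 := Nat.le_of_dvd two_pos h1
    have := hrp.two_le
    omega
  let ρ : MulChar K κ := (quadraticChar K).ringHomComp (Int.castRingHom κ)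
  have hρ : ∀ x, ρ x = ((quadraticChar K x : ℤ) : κ) := fun x => rfl
  have hρρ : ρ * ρ = 1 := by
    have := ((quadraticChar_isQuadratic K).comp (Int.castRingHom κ)).sq_eq_one
    rwa [pow_two] at this
  have hneg' : ρ (-1) = -1 := by
    rw [hρ, hneg]
    push_cast
    rfl
  have hρ1 : ρ ≠ 1 := by
    intro h
    rw [h, MulChar.one_apply (isUnit_iff_ne_zero.2 (neg_ne_zero.2 one_ne_zero))] at hneg'
    apply h20
    linear_combination hneg'
  have hq : (Fintype.card K : κ) = 1 := by
    have h : (Fintype.card K : κ) = ((1 : ℕ) : κ) := by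
      rw [CharP.natCast_eq_natCast κ r, Nat.ModEq, hK, Nat.mod_eq_of_lt hrp.one_lt]
    rwa [Nat.cast_one] at h
  have hpar : ∀ n : ℕ, ρ ^ n = pw ρ (decide (Odd n)) := by
    intro n
    rcases Nat.even_or_odd n with h | h
    · have h' : ¬ Odd n := Nat.not_odd_iff_even.2 h
      obtain ⟨m, rfl⟩ := h
      rw [decide_eq_false h', pow_add, ← mul_pow, hρρ, one_pow]
      rfl
    · rw [decide_eq_true h]
      obtain ⟨m, rfl⟩ := h
      rw [pow_succ, pow_mul, pow_two, hρρ, one_pow, one_mul]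
      rfl
  have hval : ∀ i, ∀ x : K, φ (liftR (χ i) x) = (ρ ^ b i) x := by
    intro i x
    by_cases hx : x = 0
    · rw [hx, (liftR (χ i)).map_nonunit not_isUnit_zero, map_zero'', map_zero]
    have hu : IsUnit x := isUnit_iff_ne_zero.2 hx
    obtain ⟨u, rfl⟩ := hu
    have h1 : liftR (χ i) (u : K) = ((quadraticChar K (u : K) : ℤ) : integralClosure ℤ L) ^ b i *
        liftR (χ' i) (u : K) := by
      apply Subtype.ext
      change χ i u = _
      rw [hχ i, MulChar.mul_apply, MulChar.pow_apply_coe, eta_apply]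
      rfl
    have h2 : φ (liftR (χ' i) (u : K)) = 1 := by
      apply eq_one_of_pow (r := r) (e := j)
      rw [← map_pow]
      have h3 : (liftR (χ' i) (u : K)) ^ r ^ j = 1 := by
        apply Subtype.ext
        have h4 : χ' i (u : K) ^ r ^ j = 1 := by
          rw [← MulChar.pow_apply_coe, hχ' i, MulChar.one_apply_coe]
        exact h4
      rw [h3, map_one]
    rw [h1, map_mul, h2, mul_one, map_pow, map_intCast, MulChar.pow_apply_coe, hρ]
  -- the product of the two sums
  have h3 : (∑ x, ∑ y, liftR (χ 0) x * liftR (χ 1) (1 - x) * liftR (χ 2) y * liftR (χ 3) (1 - y) *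
      liftR (χ 4) (x - y) : integralClosure ℤ L) *
      (∑ x, ∑ y, liftR (χ 0)⁻¹ x * liftR (χ 1)⁻¹ (1 - x) * liftR (χ 2)⁻¹ y *
        liftR (χ 3)⁻¹ (1 - y) * liftR (χ 4)⁻¹ (x - y)) = 4 * (Fintype.card K) ^ 2 := by
    apply Subtype.ext
    rw [MulMemClass.coe_mul, quad_coe, quad_coe, hS, hS']
    have h4 : ((4 * (Fintype.card K) ^ 2 : integralClosure ℤ L) : L) =
        4 * (Fintype.card K : L) ^ 2 := by
      have h5 : (4 * (Fintype.card K) ^ 2 : integralClosure ℤ L) =
          ((4 * (Fintype.card K) ^ 2 : ℕ) : integralClosure ℤ L) := by push_cast; rfl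
      rw [h5, SubringClass.coe_natCast]
      push_cast
      rfl
    rw [h4]
    field_simp
    ring
  have h4 := congrArg φ h3
  rw [map_mul, map_sum] at h4
  have h5 : ∀ x : K, φ (∑ y, liftR (χ 0) x * liftR (χ 1) (1 - x) * liftR (χ 2) y *
      liftR (χ 3) (1 - y) * liftR (χ 4) (x - y)) = ∑ y : K, (ρ ^ b 0) x * (ρ ^ b 1) (1 - x) *
        (ρ ^ b 2) y * (ρ ^ b 3) (1 - y) * (ρ ^ b 4) (x - y) := by
    intro x
    rw [map_sum]
    refine sum_congr rfl fun y _ => ?_
    rw [map_mul, map_mul, map_mul, map_mul, hval, hval, hval, hval, hval]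
  have h6 := quad_many hρ1 hρρ hneg' hq h20 (decide (Odd (b 0))) (decide (Odd (b 1)))
    (decide (Odd (b 2))) (decide (Odd (b 3))) (decide (Odd (b 4))) (by
      have e : ![decide (Odd (b 0)), decide (Odd (b 1)), decide (Odd (b 2)), decide (Odd (b 3)),
          decide (Odd (b 4))] = fun i => decide (Odd (b i)) := by
        funext i
        fin_cases i <;> rfl
      rw [e]
      exact hmany)
  rw [← hpar, ← hpar, ← hpar, ← hpar, ← hpar, quad] at h6
  rw [sum_congr rfl fun x _ => h5 x, h6, zero_mul, map_mul, map_pow, map_natCast, hq, map_ofNat,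
    one_pow, mul_one] at h4
  have h7 : (2 : κ) * 2 = 0 := by
    rw [← h4.symm]
    norm_num
  rcases mul_eq_zero.1 h7 with h | h <;> exact h20 h

end

end Pool.Agent.Helper73.QC
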